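import Pool.Agent.Y755.MK.Stm

/-!
Project MK (helper755), part ABS (helper980): bounds, measurability and sum of the kernels.
-/

set_option autoImplicit false

open MeasureTheory ProbabilityTheory

open scoped Classical

namespace Pool.Agent.Y980.MK.ABS

open Pool.Agent.Y755.MK

lemma uv (l : Fin 4) (s t : Bool) : uu l s t * vv l s t = 0 := by
  unfold uu vv
  split_ifs <;> simp

lemma abs_sgn (b : Bool) : |sgn b| = 1 := by
  unfold sgn
  split_ifs <;> simp

lemma abs_uu (l : Fin 4) (s t : Bool) : |uu l s t| ≤ 1 := by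
  unfold uu
  split_ifs
  · simp
  · rw [abs_sgn]

lemma abs_vv (l : Fin 4) (s t : Bool) : |vv l s t| ≤ 1 := by
  unfold vv
  split_ifs
  · rw [abs_sgn]
  · simp

/-- the terms of the series -/
noncomputable def tm (l : Fin 4) (y z : Y) (k : ℕ) : ℝ := if ∀ i < 2 * k, y i = z i then
  uu l (y (2 * k)) (y (2 * k + 1)) * vv l (z (2 * k)) (z (2 * k + 1)) else 0

lemma ae_eq (l : Fin 4) (y z : Y) : ae l y z = ∑' k, tm l y z k := rfl

lemma tm_zero_of_eq (l : Fin 4) (y z : Y) (k : ℕ) (h1 : y (2 * k) = z (2 * k))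
    (h2 : y (2 * k + 1) = z (2 * k + 1)) : tm l y z k = 0 := by
  unfold tm
  rw [h1, h2, uv, ite_self]

lemma tm_ne (l : Fin 4) (y z : Y) (s : ℕ) (hs : y s ≠ z s) (hlt : ∀ i < s, y i = z i) (k : ℕ)
    (hk : k ≠ s / 2) : tm l y z k = 0 := by
  rcases lt_or_gt_of_ne hk with h | h
  · exact tm_zero_of_eq l y z k (hlt _ (by omega)) (hlt _ (by omega))
  · unfold tm
    rw [if_neg]
    intro hall
    exact hs (hall s (by omega))

lemma ae_first (l : Fin 4) (y z : Y) (s : ℕ) (hs : y s ≠ z s) (hlt : ∀ i < s, y i = z i) :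
    ae l y z = uu l (y (2 * (s / 2))) (y (2 * (s / 2) + 1)) *
      vv l (z (2 * (s / 2))) (z (2 * (s / 2) + 1)) := by
  rw [ae_eq, tsum_eq_single (s / 2) fun k hk => tm_ne l y z s hs hlt k hk]
  unfold tm
  rw [if_pos fun i hi => hlt i (by omega)]

lemma ae_self (l : Fin 4) (y : Y) : ae l y y = 0 := by
  rw [ae_eq]
  simp only [tm_zero_of_eq l y y _ rfl rfl]
  exact tsum_zero

lemma exists_first (y z : Y) (h : y ≠ z) : ∃ s, y s ≠ z s ∧ ∀ i < s, y i = z i := by
  have h1 : ∃ s, y s ≠ z s := Function.ne_iff.mp h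
  refine ⟨Nat.find h1, Nat.find_spec h1, fun i hi => ?_⟩
  exact not_not.mp (Nat.find_min h1 hi)

lemma summ (l : Fin 4) (y z : Y) : Summable (tm l y z) := by
  by_cases h : y = z
  · subst h
    have : tm l y y = fun _ => 0 := by
      funext k
      exact tm_zero_of_eq l y y k rfl rfl
    rw [this]
    exact summable_zero
  · obtain ⟨s, hs, hlt⟩ := exists_first y z h
    exact summable_of_ne_finset_zero (s := {s / 2}) fun k hk =>
      tm_ne l y z s hs hlt k (by simpa using hk)

lemma abs_ae (l : Fin 4) (y z : Y) : |ae l y z| ≤ 1 := by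
  by_cases h : y = z
  · subst h
    rw [ae_self]
    simp
  · obtain ⟨s, hs, hlt⟩ := exists_first y z h
    rw [ae_first l y z s hs hlt, abs_mul]
    exact mul_le_one₀ (abs_uu _ _ _) (abs_nonneg _) (abs_vv _ _ _)

lemma meas_tm (l : Fin 4) (k : ℕ) : Measurable fun q : Y × Y => tm l q.1 q.2 k := by
  have hev1 : ∀ n : ℕ, Measurable fun q : Y × Y => q.1 n := fun n =>
    (measurable_pi_apply n).comp measurable_fst
  have hev2 : ∀ n : ℕ, Measurable fun q : Y × Y => q.2 n := fun n =>
    (measurable_pi_apply n).comp measurable_snd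
  unfold tm
  refine Measurable.ite ?_ ?_ measurable_const
  · have : {q : Y × Y | ∀ i < 2 * k, q.1 i = q.2 i} =
        ⋂ i : ℕ, ⋂ (_ : i < 2 * k), {q : Y × Y | q.1 i = q.2 i} := by
      ext q
      simp
    rw [this]
    exact MeasurableSet.iInter fun i => MeasurableSet.iInter fun _ =>
      measurableSet_eq_fun (hev1 i) (hev2 i)
  · refine Measurable.mul ?_ ?_
    · exact (measurable_of_countable fun p : Bool × Bool => uu l p.1 p.2).comp
        ((hev1 (2 * k)).prodMk (hev1 (2 * k + 1)))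
    · exact (measurable_of_countable fun p : Bool × Bool => vv l p.1 p.2).comp
        ((hev2 (2 * k)).prodMk (hev2 (2 * k + 1)))

lemma meas_ae (l : Fin 4) : Measurable fun q : Y × Y => ae l q.1 q.2 := by
  refine measurable_of_tendsto_metrizable
    (f := fun n (q : Y × Y) => ∑ k ∈ Finset.range n, tm l q.1 q.2 k) (fun n => ?_) ?_
  · exact Finset.measurable_fun_sum _ fun k _ => meas_tm l k
  · rw [tendsto_pi_nhds]
    intro q
    exact (summ l q.1 q.2).hasSum.tendsto_sum_nat

lemma meas_cons0 : Measurable cons0 := by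
  refine measurable_pi_lambda _ fun n => ?_
  unfold cons0
  by_cases h : n = 0
  · simp only [h, if_true]
    exact measurable_const
  · simp only [h, if_false]
    exact measurable_pi_apply _

theorem t_AB : S_AB := by
  intro i
  unfold aa
  by_cases h : i.1 < 4
  · simp only [h, if_true]
    exact ⟨fun y z => abs_le.mp (abs_ae _ _ _), meas_ae _⟩
  · simp only [h, if_false]
    refine ⟨fun y z => abs_le.mp (abs_ae _ _ _), ?_⟩
    exact (meas_ae (Fin.ofNat 4 i.1)).comp
      ((meas_cons0.comp measurable_fst).prodMk (meas_cons0.comp measurable_snd))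

lemma g1 (a b c d : Bool) (h : a ≠ c) : ∑ l : Fin 4, uu l a b * vv l c d = -1 := by
  rw [Fin.sum_univ_four]
  cases a <;> cases b <;> cases c <;> cases d <;> simp_all [uu, vv, bl, sgn]

lemma g2 (a b c d : Bool) (h : a = c) (h' : b ≠ d) : ∑ l : Fin 4, uu l a b * vv l c d = 2 := by
  rw [Fin.sum_univ_four]
  cases a <;> cases b <;> cases c <;> cases d <;> simp_all [uu, vv, bl, sgn] <;> norm_num

lemma sum_even (y z : Y) (s : ℕ) (hs : y s ≠ z s) (hlt : ∀ i < s, y i = z i)
    (he : s = 2 * (s / 2)) : ∑ l : Fin 4, ae l y z = -1 := by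
  simp only [ae_first _ y z s hs hlt]
  refine g1 _ _ _ _ ?_
  rw [← he]
  exact hs

lemma sum_odd (y z : Y) (s : ℕ) (hs : y s ≠ z s) (hlt : ∀ i < s, y i = z i)
    (he : s = 2 * (s / 2) + 1) : ∑ l : Fin 4, ae l y z = 2 := by
  simp only [ae_first _ y z s hs hlt]
  refine g2 _ _ _ _ (hlt _ (by omega)) ?_
  rw [← he]
  exact hs

lemma sum_aa (y z : Y) : ∑ i : Fin 8, aa i y z =
    ∑ l : Fin 4, ae l y z + ∑ l : Fin 4, ae l (cons0 y) (cons0 z) := by
  rw [Fin.sum_univ_eight, Fin.sum_univ_four, Fin.sum_univ_four]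
  have h0 : aa 0 y z = ae 0 y z := rfl
  have h1 : aa 1 y z = ae 1 y z := rfl
  have h2 : aa 2 y z = ae 2 y z := rfl
  have h3 : aa 3 y z = ae 3 y z := rfl
  have h4 : aa 4 y z = ae 0 (cons0 y) (cons0 z) := rfl
  have h5 : aa 5 y z = ae 1 (cons0 y) (cons0 z) := rfl
  have h6 : aa 6 y z = ae 2 (cons0 y) (cons0 z) := rfl
  have h7 : aa 7 y z = ae 3 (cons0 y) (cons0 z) := rfl
  rw [h0, h1, h2, h3, h4, h5, h6, h7]
  ring

theorem t_AS : S_AS := by
  intro y z h
  obtain ⟨s, hs, hlt⟩ := exists_first y z h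
  have hs' : cons0 y (s + 1) ≠ cons0 z (s + 1) := by
    simpa [cons0] using hs
  have hlt' : ∀ i < s + 1, cons0 y i = cons0 z i := by
    intro i hi
    unfold cons0
    by_cases h0 : i = 0
    · rw [if_pos h0, if_pos h0]
    · rw [if_neg h0, if_neg h0]
      exact hlt _ (by omega)
  rw [sum_aa]
  rcases Nat.even_or_odd' s with ⟨K, hK | hK⟩
  · rw [sum_even y z s hs hlt (by omega), sum_odd _ _ (s + 1) hs' hlt' (by omega)]
    norm_num
  · rw [sum_odd y z s hs hlt (by omega), sum_even _ _ (s + 1) hs' hlt' (by omega)]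
    norm_num

end Pool.Agent.Y980.MK.ABS
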