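import Pool.Agent.Y755.MK.Stm

/-!
Project MK (helper755), part PP (helper980): the properties of the density.
-/

set_option autoImplicit false

open MeasureTheory ProbabilityTheory

open scoped Classical

namespace Pool.Agent.Y980.MK.PP

open Pool.Agent.Y755.MK

/-- the coefficients -/
noncomputable def R (i : Fin 8) (c d : C) : ℝ := if Lf i c = Lf i d then 1 else -1 / 6

lemma R_symm (i : Fin 8) (c d : C) : R i c d = R i d c := by
  unfold R
  simp only [eq_comm]

lemma R_eq (i : Fin 8) (c d : C) :
    R i c d = -1 / 6 + 7 / 6 * (if Lf i c = Lf i d then 1 else 0) := by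
  unfold R
  split_ifs <;> norm_num

lemma sum_R (h : S_CC) (i : Fin 8) (c : C) : ∑ d : C, R i c d = 0 := by
  simp only [R_eq]
  rw [Finset.sum_add_distrib, ← Finset.mul_sum, Finset.sum_const, Finset.card_univ]
  have h1 : (∑ d : C, if Lf i c = Lf i d then (1 : ℝ) else 0) = 7 := by
    rw [Finset.sum_boole]
    have h2 := h.2.1 i (Lf i c)
    have h3 : (Finset.univ.filter fun d : C => Lf i c = Lf i d) =
        Finset.univ.filter fun d : C => Lf i d = Lf i c := by
      ext d
      simp [eq_comm]
    rw [h3, h2]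
    norm_num
  rw [h1]
  simp only [C, Fintype.card_prod, Fintype.card_fin]
  norm_num

lemma sum_F (a : Fin 7) : ∑ b : Fin 7, (if a = b then (1 : ℝ) else -1 / 6) = 0 := by
  have h1 : ∀ b : Fin 7, (if a = b then (1 : ℝ) else -1 / 6) =
      -1 / 6 + 7 / 6 * (if a = b then 1 else 0) := by
    intro b
    split_ifs <;> norm_num
  simp only [h1]
  rw [Finset.sum_add_distrib, ← Finset.mul_sum, Finset.sum_const, Finset.card_univ,
    Finset.sum_ite_eq Finset.univ a, if_pos (Finset.mem_univ a), Fintype.card_fin]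
  norm_num

lemma sum_RR (h : S_CC) (i j : Fin 8) (hij : i ≠ j) (c e : C) :
    ∑ d : C, R i c d * R j d e = 0 := by
  have hbij : Function.Bijective fun d : C => (Lf i d, Lf j d) := by
    have hinj : Function.Injective fun d : C => (Lf i d, Lf j d) := by
      intro d d' hd
      simp only [Prod.mk.injEq] at hd
      have h1 := h.2.2 i j hij (Lf i d) (Lf j d)
      rw [Finset.card_eq_one] at h1
      obtain ⟨x, hx⟩ := h1
      have h2 : d ∈ ({x} : Finset C) := by
        rw [← hx]
        simp
      have h3 : d' ∈ ({x} : Finset C) := by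
        rw [← hx]
        simp [hd.1, hd.2]
      rw [Finset.mem_singleton] at h2 h3
      rw [h2, h3]
    exact (Fintype.bijective_iff_injective_and_card _).mpr ⟨hinj, rfl⟩
  have h1 : ∑ d : C, R i c d * R j d e =
      ∑ p : Fin 7 × Fin 7, (if Lf i c = p.1 then (1 : ℝ) else -1 / 6) *
        (if Lf j e = p.2 then (1 : ℝ) else -1 / 6) := by
    refine Eq.trans (Finset.sum_congr rfl fun d _ => ?_)
      (hbij.sum_comp (fun p : Fin 7 × Fin 7 => (if Lf i c = p.1 then (1 : ℝ) else -1 / 6) *
        (if Lf j e = p.2 then (1 : ℝ) else -1 / 6)))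
    rw [R_symm j d e]
    rfl
  rw [h1]
  have h2 : ∀ F G : Fin 7 → ℝ, ∑ p : Fin 7 × Fin 7, F p.1 * G p.2 =
      (∑ a, F a) * ∑ b, G b := by
    intro F G
    rw [Finset.sum_mul_sum, Fintype.sum_prod_type]
  refine (h2 (fun a => if Lf i c = a then (1 : ℝ) else -1 / 6)
    (fun b => if Lf j e = b then (1 : ℝ) else -1 / 6)).trans ?_
  rw [sum_F, zero_mul]

lemma pp_eq (has : S_AS) (h : S_CC) (c d : C) (y z : Y) (hyz : y ≠ z) :
    pp c d y z = 1 - ∑ i : Fin 8, R i c d * aa i y z := by
  have h1 : ∑ i : Fin 8, R i c d * aa i y z =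
      -1 / 6 + 7 / 6 * ∑ i : Fin 8, (if Lf i c = Lf i d then 1 else 0) * aa i y z := by
    simp only [R_eq, add_mul, mul_assoc]
    rw [Finset.sum_add_distrib, ← Finset.mul_sum, ← Finset.mul_sum, has y z hyz]
    ring
  rw [h1]
  unfold pp
  split_ifs with hcd
  · subst hcd
    simp only [if_true, one_mul]
    rw [has y z hyz]
    norm_num
  · obtain ⟨i0, hi0, hu⟩ := h.1 c d hcd
    have h2 : ∑ i : Fin 8, (if Lf i c = Lf i d then 1 - aa i y z else 0) = 1 - aa i0 y z := by
      rw [Finset.sum_eq_single i0]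
      · rw [if_pos hi0]
      · intro i _ hi
        rw [if_neg fun hh => hi (hu i hh)]
      · intro hh
        exact absurd (Finset.mem_univ _) hh
    have h3 : ∑ i : Fin 8, (if Lf i c = Lf i d then (1 : ℝ) else 0) * aa i y z =
        aa i0 y z := by
      rw [Finset.sum_eq_single i0]
      · rw [if_pos hi0, one_mul]
      · intro i _ hi
        rw [if_neg fun hh => hi (hu i hh), zero_mul]
      · intro hh
        exact absurd (Finset.mem_univ _) hh
    rw [h2, h3]
    ring

lemma meas1 (hab : S_AB) (i : Fin 8) (y : Y) : Measurable fun z => aa i y z :=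
  (hab i).2.comp (measurable_const.prodMk measurable_id)

lemma meas2 (hab : S_AB) (i : Fin 8) (z : Y) : Measurable fun y => aa i y z :=
  (hab i).2.comp (measurable_id.prodMk measurable_const)

lemma int1 (hab : S_AB) (i : Fin 8) (y : Y) : Integrable (fun z => aa i y z) mY :=
  Integrable.of_bound (meas1 hab i y).aestronglyMeasurable 1
    (Filter.Eventually.of_forall fun z => by
      rw [Real.norm_eq_abs]
      exact abs_le.mpr ((hab i).1 y z))

lemma int2 (hab : S_AB) (i : Fin 8) (z : Y) : Integrable (fun y => aa i y z) mY :=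
  Integrable.of_bound (meas2 hab i z).aestronglyMeasurable 1
    (Filter.Eventually.of_forall fun y => by
      rw [Real.norm_eq_abs]
      exact abs_le.mpr ((hab i).1 y z))

lemma int3 (hab : S_AB) (i j : Fin 8) (y w : Y) :
    Integrable (fun z => aa i y z * aa j z w) mY :=
  Integrable.of_bound ((meas1 hab i y).mul (meas2 hab j w)).aestronglyMeasurable 1
    (Filter.Eventually.of_forall fun z => by
      rw [Real.norm_eq_abs, abs_mul]
      exact mul_le_one₀ (abs_le.mpr ((hab i).1 y z)) (abs_nonneg _)
        (abs_le.mpr ((hab j).1 z w)))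

lemma ae_ne (hna : S_NA) (y : Y) : ∀ᵐ z ∂mY, z ≠ y := by
  rw [ae_iff]
  have : {z : Y | ¬ z ≠ y} = {y} := by
    ext z
    simp
  rw [this]
  exact hna y

lemma int_pp1 (hab : S_AB) (has : S_AS) (hna : S_NA) (h : S_CC) (c d : C) (y : Y) :
    ∫ z, pp c d y z ∂mY = 1 - ∑ i : Fin 8, R i c d * ∫ z, aa i y z ∂mY := by
  have h1 : (fun z => pp c d y z) =ᵐ[mY] fun z => 1 - ∑ i : Fin 8, R i c d * aa i y z := by
    filter_upwards [ae_ne hna y] with z hz
    exact pp_eq has h c d y z (Ne.symm hz)
  rw [integral_congr_ae h1, integral_sub (integrable_const _)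
    (integrable_finsetSum _ fun i _ => (int1 hab i y).const_mul _),
    integral_finsetSum _ fun i _ => (int1 hab i y).const_mul _]
  simp only [integral_const_mul, integral_const, probReal_univ, smul_eq_mul, mul_one]

lemma int_pp2 (hab : S_AB) (has : S_AS) (hna : S_NA) (h : S_CC) (c d : C) (z : Y) :
    ∫ y, pp c d y z ∂mY = 1 - ∑ i : Fin 8, R i c d * ∫ y, aa i y z ∂mY := by
  have h1 : (fun y => pp c d y z) =ᵐ[mY] fun y => 1 - ∑ i : Fin 8, R i c d * aa i y z := by
    filter_upwards [ae_ne hna z] with y hy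
    exact pp_eq has h c d y z hy
  rw [integral_congr_ae h1, integral_sub (integrable_const _)
    (integrable_finsetSum _ fun i _ => (int2 hab i z).const_mul _),
    integral_finsetSum _ fun i _ => (int2 hab i z).const_mul _]
  simp only [integral_const_mul, integral_const, probReal_univ, smul_eq_mul, mul_one]

lemma card49 : ∑ _d : C, (1 : ℝ) = 49 := by
  rw [Finset.sum_const, Finset.card_univ]
  simp only [C, Fintype.card_prod, Fintype.card_fin]
  norm_num

lemma int_pp3 (hab : S_AB) (has : S_AS) (hna : S_NA) (h : S_CC) (c d e : C) (y w : Y) :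
    ∫ z, pp c d y z * pp d e z w ∂mY =
      1 - ∑ i : Fin 8, R i c d * ∫ z, aa i y z ∂mY -
        ∑ j : Fin 8, R j d e * ∫ z, aa j z w ∂mY +
        ∑ i : Fin 8, ∑ j : Fin 8, R i c d * R j d e * ∫ z, aa i y z * aa j z w ∂mY := by
  have h1 : (fun z => pp c d y z * pp d e z w) =ᵐ[mY] fun z =>
      ((1 - ∑ i : Fin 8, R i c d * aa i y z) - ∑ j : Fin 8, R j d e * aa j z w) +
        ∑ i : Fin 8, ∑ j : Fin 8, R i c d * R j d e * (aa i y z * aa j z w) := by
    filter_upwards [ae_ne hna y, ae_ne hna w] with z hz hz'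
    rw [pp_eq has h c d y z (Ne.symm hz), pp_eq has h d e z w hz']
    have h2 : ∑ i : Fin 8, ∑ j : Fin 8, R i c d * R j d e * (aa i y z * aa j z w) =
        (∑ i : Fin 8, R i c d * aa i y z) * ∑ j : Fin 8, R j d e * aa j z w := by
      rw [Finset.sum_mul_sum]
      refine Finset.sum_congr rfl fun i _ => Finset.sum_congr rfl fun j _ => ?_
      ring
    rw [h2]
    ring
  have i1 : Integrable (fun z => ∑ i : Fin 8, R i c d * aa i y z) mY :=
    integrable_finsetSum _ fun i _ => (int1 hab i y).const_mul _
  have i2 : Integrable (fun z => ∑ j : Fin 8, R j d e * aa j z w) mY :=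
    integrable_finsetSum _ fun j _ => (int2 hab j w).const_mul _
  have i3 : Integrable (fun z => ∑ i : Fin 8, ∑ j : Fin 8,
      R i c d * R j d e * (aa i y z * aa j z w)) mY :=
    integrable_finsetSum _ fun i _ => integrable_finsetSum _ fun j _ =>
      (int3 hab i j y w).const_mul _
  have i4 : Integrable (fun z => 1 - ∑ i : Fin 8, R i c d * aa i y z) mY :=
    (integrable_const _).sub i1
  have i5 : Integrable (fun z => (1 - ∑ i : Fin 8, R i c d * aa i y z) -
      ∑ j : Fin 8, R j d e * aa j z w) mY := i4.sub i2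
  rw [integral_congr_ae h1, integral_add i5 i3,
    integral_sub i4 i2, integral_sub (integrable_const _) i1,
    integral_finsetSum _ fun i _ => (int1 hab i y).const_mul _,
    integral_finsetSum _ fun j _ => (int2 hab j w).const_mul _,
    integral_finsetSum _ fun i _ => integrable_finsetSum _ fun j _ =>
      (int3 hab i j y w).const_mul _]
  have h3 : ∀ i : Fin 8, ∫ z, ∑ j : Fin 8, R i c d * R j d e * (aa i y z * aa j z w) ∂mY =
      ∑ j : Fin 8, R i c d * R j d e * ∫ z, aa i y z * aa j z w ∂mY := by
    intro i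
    rw [integral_finsetSum _ fun j _ => (int3 hab i j y w).const_mul _]
    simp only [integral_const_mul]
  simp only [h3, integral_const_mul, integral_const, probReal_univ, smul_eq_mul, mul_one]

theorem t_PP : S_AB → S_AS → S_AN → S_NA → S_CC → S_PP := by
  intro hab has han hna h
  refine ⟨?_, ?_, ?_⟩
  · intro c y
    simp only [int_pp1 hab has hna h]
    rw [Finset.sum_sub_distrib, card49, Finset.sum_comm]
    simp only [← Finset.sum_mul, sum_R h, zero_mul, Finset.sum_const_zero, sub_zero]
  · intro d z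
    simp only [int_pp2 hab has hna h]
    rw [Finset.sum_sub_distrib, card49, Finset.sum_comm]
    have h1 : ∀ i : Fin 8, ∑ c : C, R i c d = 0 := by
      intro i
      simp only [R_symm i _ d]
      exact sum_R h i d
    simp only [← Finset.sum_mul, h1, zero_mul, Finset.sum_const_zero, sub_zero]
  · intro c e y w
    simp only [int_pp3 hab has hna h]
    rw [Finset.sum_add_distrib, Finset.sum_sub_distrib, Finset.sum_sub_distrib, card49]
    have h1 : ∑ d : C, ∑ i : Fin 8, R i c d * ∫ z, aa i y z ∂mY = 0 := by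
      rw [Finset.sum_comm]
      simp only [← Finset.sum_mul, sum_R h, zero_mul, Finset.sum_const_zero]
    have h2 : ∑ d : C, ∑ j : Fin 8, R j d e * ∫ z, aa j z w ∂mY = 0 := by
      rw [Finset.sum_comm]
      have h3 : ∀ i : Fin 8, ∑ c : C, R i c e = 0 := by
        intro i
        simp only [R_symm i _ e]
        exact sum_R h i e
      simp only [← Finset.sum_mul, h3, zero_mul, Finset.sum_const_zero]
    have h4 : ∑ d : C, ∑ i : Fin 8, ∑ j : Fin 8,
        R i c d * R j d e * ∫ z, aa i y z * aa j z w ∂mY = 0 := by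
      rw [Finset.sum_comm]
      refine Finset.sum_eq_zero fun i _ => ?_
      rw [Finset.sum_comm]
      refine Finset.sum_eq_zero fun j _ => ?_
      rw [← Finset.sum_mul]
      by_cases hij : i = j
      · subst hij
        rw [han i y w, mul_zero]
      · rw [sum_RR h i j hij, zero_mul]
    rw [h1, h2, h4]
    norm_num

end Pool.Agent.Y980.MK.PP
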