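import Pool.Agent.Y755.MK.Stm

/-!
Project MK (helper755), part PS (helper980): the density on the state space.
-/

set_option autoImplicit false

open MeasureTheory ProbabilityTheory

open scoped Classical

namespace Pool.Agent.Y980.MK.PS

open Pool.Agent.Y755.MK

lemma prob_mS : IsProbabilityMeasure mS := by
  unfold mS
  infer_instance

lemma pp_bound (hab : S_AB) (h : S_CC) (c d : C) (y z : Y) :
    0 ≤ pp c d y z ∧ pp c d y z ≤ 3 := by
  unfold pp
  split_ifs with hcd
  · norm_num
  · obtain ⟨i0, hi0, hu⟩ := h.1 c d hcd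
    have h2 : ∑ i : Fin 8, (if Lf i c = Lf i d then 1 - aa i y z else 0) = 1 - aa i0 y z := by
      rw [Finset.sum_eq_single i0]
      · rw [if_pos hi0]
      · intro i _ hi
        rw [if_neg fun hh => hi (hu i hh)]
      · intro hh
        exact absurd (Finset.mem_univ _) hh
    rw [h2]
    have h3 := (hab i0).1 y z
    constructor <;> linarith [h3.1, h3.2]

lemma meas_ps (hab : S_AB) : Measurable fun q : S0 × S0 => ps q.1 q.2 := by
  unfold ps pp
  have h1 : Measurable fun q : S0 × S0 => q.1.1 := measurable_fst.comp measurable_fst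
  have h2 : Measurable fun q : S0 × S0 => q.2.1 := measurable_fst.comp measurable_snd
  have h3 : Measurable fun q : S0 × S0 => q.1.2 := measurable_snd.comp measurable_fst
  have h4 : Measurable fun q : S0 × S0 => q.2.2 := measurable_snd.comp measurable_snd
  refine Measurable.ite (measurableSet_eq_fun h1 h2) measurable_const ?_
  refine Measurable.const_mul (Finset.measurable_fun_sum _ fun i _ => ?_) _
  refine Measurable.ite ?_ ?_ measurable_const
  · exact measurableSet_eq_fun ((measurable_of_countable (Lf i)).comp h1)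
      ((measurable_of_countable (Lf i)).comp h2)
  · exact measurable_const.sub ((hab i).2.comp (h3.prodMk h4))

lemma int_mS (F : S0 → ℝ) (hF : Measurable F) (B : ℝ) (hB : ∀ x, |F x| ≤ B) :
    ∫ x, F x ∂mS = (∑ c : C, ∫ y, F (c, y) ∂mY) / 49 := by
  haveI := prob_mS
  have hint : Integrable F mS := Integrable.of_bound hF.aestronglyMeasurable B
    (Filter.Eventually.of_forall fun x => by
      rw [Real.norm_eq_abs]
      exact hB x)
  unfold mS at hint ⊢
  rw [integral_prod _ hint, PMF.integral_eq_sum, Finset.sum_div]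
  refine Finset.sum_congr rfl fun c _ => ?_
  rw [PMF.uniformOfFintype_apply]
  have h1 : ((Fintype.card C : ENNReal)⁻¹).toReal = 1 / 49 := by
    rw [ENNReal.toReal_inv]
    simp only [C, Fintype.card_prod, Fintype.card_fin]
    norm_num
  rw [h1, smul_eq_mul]
  ring

theorem t_PS : S_AB → S_CC → S_PP → S_PS := by
  intro hab h hpp
  have hm := meas_ps hab
  have hb : ∀ x x' : S0, 0 ≤ ps x x' ∧ ps x x' ≤ 3 := fun x x' =>
    pp_bound hab h x.1 x'.1 x.2 x'.2
  have hm1 : ∀ x : S0, Measurable fun x' => ps x x' := fun x =>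
    hm.comp (measurable_const.prodMk measurable_id)
  have hm2 : ∀ x' : S0, Measurable fun x => ps x x' := fun x' =>
    hm.comp (measurable_id.prodMk measurable_const)
  have ha : ∀ x x' : S0, |ps x x'| ≤ 3 := fun x x' =>
    abs_le.mpr ⟨by linarith [(hb x x').1], (hb x x').2⟩
  refine ⟨prob_mS, hm, hb, ?_, ?_, ?_, ?_⟩
  · intro x
    rw [int_mS _ (hm1 x) 3 fun x' => ha x x']
    have h1 := hpp.1 x.1 x.2
    have h2 : ∑ c : C, ∫ y, ps x (c, y) ∂mY = 49 := h1
    rw [h2]
    norm_num
  · intro x'
    rw [int_mS _ (hm2 x') 3 fun x => ha x x']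
    have h1 := hpp.2.1 x'.1 x'.2
    have h2 : ∑ c : C, ∫ y, ps (c, y) x' ∂mY = 49 := h1
    rw [h2]
    norm_num
  · intro x x''
    rw [int_mS (fun x' => ps x x' * ps x' x'') ((hm1 x).mul (hm2 x'')) 9 fun x' => by
      rw [abs_mul]
      calc |ps x x'| * |ps x' x''| ≤ 3 * 3 :=
            mul_le_mul (ha _ _) (ha _ _) (abs_nonneg _) (by norm_num)
        _ = 9 := by norm_num]
    have h1 := hpp.2.2 x.1 x''.1 x.2 x''.2
    have h2 : ∑ c : C, ∫ y, ps x (c, y) * ps (c, y) x'' ∂mY = 49 := h1
    rw [h2]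
    norm_num
  · intro x x' hx
    unfold ps pp
    rw [if_pos hx]

end Pool.Agent.Y980.MK.PS
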